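import Pool.Agent.Helper59.AN.Goals2

set_option autoImplicit false

noncomputable section

namespace AN.PkCARD

open Pool.Agent.Helper97.Ku NU AN Cardinal

/-- the regular set generated by a sequence of conditions -/
def Phi' {P : Type} [Preorder P] (s : ℕ → Option P) : RO P :=
  ⨆ n, (match s n with | some q => RO.cl {r | r ≤ q} | none => ⊥)

lemma surj {P : Type} [Preorder P] (hccc : CccL (RO P)) :
    Function.Surjective (Phi' : (ℕ → Option P) → RO P) := by
  classical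
  intro c
  let S : Set (Set P) :=
    {A | (∀ q ∈ A, q ∈ c) ∧ A.Pairwise fun q q' => ¬ ∃ r, r ≤ q ∧ r ≤ q'}
  obtain ⟨A, hA⟩ := zorn_subset S (by
    intro C hC hch
    refine ⟨⋃₀ C, ⟨?_, ?_⟩, fun s hs => Set.subset_sUnion_of_mem hs⟩
    · rintro q ⟨s, hs, hq⟩
      exact (hC hs).1 q hq
    · rw [Set.pairwise_sUnion hch.directedOn]
      intro s hs
      exact (hC hs).2)
  have hAS : A ∈ S := hA.prop
  have hcount : A.Countable := by
    have := hccc A (fun q => RO.cl {r | r ≤ q.1}) (by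
      intro q hq
      have h1 : q.1 ∈ RO.cl {r | r ≤ q.1} := fun t ht => ⟨t, le_rfl, ht⟩
      rw [hq] at h1
      exact RO.not_mem_bot _ h1) (by
      intro q q' hqq'
      apply le_antisymm _ bot_le
      rw [RO.le_def]
      intro p hp
      exfalso
      obtain ⟨hp1, hp2⟩ := RO.mem_inf.1 hp
      obtain ⟨r, hr, hrq⟩ := RO.mem_cl.1 hp1 p le_rfl
      obtain ⟨r', hr', hrq'⟩ := RO.mem_cl.1 hp2 r hr
      exact hAS.2 q.2 q'.2 (fun h => hqq' (Subtype.ext h)) ⟨r', hr'.trans hrq, hrq'⟩)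
    exact Set.countable_coe_iff.1 this
  have hex : ∀ p ∈ c, ∃ q ∈ A, ∃ r, r ≤ p ∧ r ≤ q := by
    intro p hp
    by_contra hne
    have hins : insert p A ∈ S := by
      refine ⟨?_, ?_⟩
      · intro q hq
        rcases hq with rfl | hq
        · exact hp
        · exact hAS.1 q hq
      · rw [Set.pairwise_insert]
        refine ⟨hAS.2, ?_⟩
        intro q hq _
        refine ⟨fun ⟨r, h1, h2⟩ => hne ⟨q, hq, r, h1, h2⟩,
          fun ⟨r, h1, h2⟩ => hne ⟨q, hq, r, h2, h1⟩⟩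
    have hpA : p ∈ A := hA.le_of_ge hins (Set.subset_insert p A) (Set.mem_insert p A)
    exact hne ⟨p, hpA, p, le_rfl, le_rfl⟩
  have hs : ∃ s : ℕ → Option P, ∀ q, q ∈ A ↔ ∃ n, s n = some q := by
    rcases A.eq_empty_or_nonempty with h | h
    · refine ⟨fun _ => none, fun q => ?_⟩
      rw [h]
      simp
    · obtain ⟨f, hf⟩ := hcount.exists_eq_range h
      refine ⟨fun n => some (f n), fun q => ?_⟩
      rw [hf]
      simp
  obtain ⟨s, hs⟩ := hs
  refine ⟨s, ?_⟩
  apply le_antisymm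
  · unfold Phi'
    refine iSup_le fun n => ?_
    cases hn : s n with
    | none => exact bot_le
    | some q =>
      have hq : q ∈ A := (hs q).2 ⟨n, hn⟩
      rw [RO.le_def]
      intro p hp
      refine RO.dense fun q' hq' => ?_
      obtain ⟨r, hr, hrq⟩ := RO.mem_cl.1 hp q' hq'
      exact ⟨r, hr, RO.lower hrq (hAS.1 q hq)⟩
  · rw [RO.le_def]
    intro p hp
    unfold Phi'
    rw [RO.mem_iSup]
    intro q hq
    obtain ⟨q', hq', r, hr, hr'⟩ := hex q (RO.lower hq hp)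
    obtain ⟨n, hn⟩ := (hs q').1 hq'
    refine ⟨r, hr, n, ?_⟩
    rw [hn]
    exact RO.mem_cl.2 fun t ht => ⟨t, le_rfl, ht.trans hr'⟩

/-- the vertices as elements of a sum of products -/
def enc {I X : Type} : Vx I X → (I × List ℕ × Finset ℕ) ⊕ (I × X × List ℕ)
  | Vx.a i s σ => Sum.inl (i, s, σ)
  | Vx.g i x s => Sum.inr (i, x, s)

lemma enc_inj {I X : Type} : Function.Injective (enc : Vx I X → _) := by
  intro v w h
  cases v <;> cases w <;> simp_all [enc]

lemma card_finset_le {α : Type} (κ : Cardinal) (hκ : ℵ₀ ≤ κ) (h : #α ≤ κ) : #(Finset α) ≤ κ := by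
  classical
  have h1 : #(Finset α) ≤ #(List α) :=
    mk_le_of_surjective (f := List.toFinset) List.toFinset_surjective
  refine h1.trans ((mk_list_le_max α).trans ?_)
  exact max_le hκ h

theorem card : G_CARD := by
  intro X _ hX R hccc
  have hunc := hX.unc
  have hne : Nonempty X := inferInstance
  set κ : Cardinal := #(Ix X) with hκdef
  have hT : ℵ₀ ≤ #((ℕ ⊕ X) × X × ℕ) := by
    obtain ⟨x⟩ := hne
    rw [aleph0_le_mk_iff]
    exact Infinite.of_injective (fun n : ℕ => ((Sum.inl n, x, 0) : (ℕ ⊕ X) × X × ℕ)) (by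
      intro a b h
      simpa using h)
  have hκ2 : κ = 2 ^ #((ℕ ⊕ X) × X × ℕ) := by
    rw [hκdef]
    exact mk_set
  have hTκ : #((ℕ ⊕ X) × X × ℕ) ≤ κ := by
    rw [hκ2]
    exact (cantor _).le
  have hκ0 : ℵ₀ ≤ κ := hT.trans hTκ
  have hpow : κ ^ ℵ₀ = κ := by
    rw [hκ2, ← power_mul, mul_aleph0_eq hT]
  have hmul : κ * κ = κ := mul_eq_self hκ0
  have hXκ : #X ≤ κ := by
    refine le_trans ?_ hTκ
    exact mk_le_of_injective (f := fun x : X => ((Sum.inr x, x, 0) : (ℕ ⊕ X) × X × ℕ)) (by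
      intro a b h
      simp at h
      exact h)
  have hL : #(List ℕ) ≤ κ := by
    rw [mk_list_eq_aleph0]
    exact hκ0
  have hF : #(Finset ℕ) ≤ κ := card_finset_le κ hκ0 (by rw [mk_nat]; exact hκ0)
  have hV : #(Vx (Ix X) X) ≤ κ := by
    refine (mk_le_of_injective enc_inj).trans ?_
    rw [mk_sum, mk_prod, mk_prod, mk_prod, mk_prod]
    simp only [lift_id, lift_uzero]
    have e1 : #(Ix X) * (#(List ℕ) * #(Finset ℕ)) ≤ κ := by
      calc #(Ix X) * (#(List ℕ) * #(Finset ℕ)) ≤ κ * (κ * κ) :=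
            mul_le_mul' le_rfl (mul_le_mul' hL hF)
        _ = κ := by rw [hmul, hmul]
    have e2 : #(Ix X) * (#X * #(List ℕ)) ≤ κ := by
      calc #(Ix X) * (#X * #(List ℕ)) ≤ κ * (κ * κ) :=
            mul_le_mul' le_rfl (mul_le_mul' hXκ hL)
        _ = κ := by rw [hmul, hmul]
    calc _ ≤ κ + κ := add_le_add e1 e2
      _ = κ := add_eq_self hκ0
  have hC : #(Cd R (Ix X)) ≤ κ := by
    refine le_trans ?_ (card_finset_le κ hκ0 hV)
    exact mk_le_of_injective (f := fun p : Cd R (Ix X) => p.1) Subtype.val_injective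
  have hO : #(Option (Cd R (Ix X))) ≤ κ := by
    rw [mk_option]
    calc #(Cd R (Ix X)) + 1 ≤ κ + κ := add_le_add hC (one_le_aleph0.trans hκ0)
      _ = κ := add_eq_self hκ0
  have hRO : #(RO (Cd R (Ix X))) ≤ κ := by
    refine (mk_le_of_surjective (surj hccc)).trans ?_
    rw [mk_pi, prod_const]
    simp only [lift_id, lift_uzero, mk_nat]
    calc #(Option (Cd R (Ix X))) ^ ℵ₀ ≤ κ ^ ℵ₀ := power_le_power_right hO
      _ = κ := hpow
  rw [mk_pi, prod_const]
  simp only [lift_id, lift_uzero, mk_nat]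
  calc #(RO (Cd R (Ix X))) ^ ℵ₀ ≤ κ ^ ℵ₀ := power_le_power_right hRO
    _ = κ := hpow

end AN.PkCARD
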