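import Mathlib

/-! Invariance of the complement (step (2) of Theorem AN). -/

namespace Pool.Agent.Helper49.AN

open scoped commutatorElement

universe u v w

theorem aeval_mem {K : Type u} [Field K] {V : Type v} [AddCommGroup V] [Module K V]
    (f : Module.End K V) (W : Submodule K V) (h : ∀ v ∈ W, f v ∈ W) (p : Polynomial K) :
    ∀ v ∈ W, Polynomial.aeval f p v ∈ W := by
  intro v hv
  induction p using Polynomial.induction_on' with
  | add p q hp hq =>
    rw [map_add, LinearMap.add_apply]
    exact W.add_mem hp hq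
  | monomial n a =>
    have hn : ∀ n : ℕ, (f ^ n) v ∈ W := by
      intro n
      induction n with
      | zero => simpa using hv
      | succ n ih => rw [pow_succ', Module.End.mul_apply]; exact h _ ih
    rw [Polynomial.aeval_monomial, Module.End.mul_apply]
    exact W.smul_mem a (hn n)

theorem aeval_conj {K : Type u} [Field K] {V : Type v} [AddCommGroup V] [Module K V]
    {L : Type w} [Group L] (ρ : L →* Module.End K V) (g s : L) (p : Polynomial K) :
    Polynomial.aeval (ρ (g * s * g⁻¹)) p = ρ g * Polynomial.aeval (ρ s) p * ρ g⁻¹ := by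
  have h1 : ρ g⁻¹ * ρ g = 1 := by rw [← map_mul]; simp
  have h2 : ρ g * ρ g⁻¹ = 1 := by rw [← map_mul]; simp
  induction p using Polynomial.induction_on' with
  | add p q hp hq => rw [map_add, map_add, hp, hq, mul_add, add_mul]
  | monomial n a =>
    have hn : ∀ n : ℕ, (ρ (g * s * g⁻¹)) ^ n = ρ g * (ρ s) ^ n * ρ g⁻¹ := by
      intro n
      rw [← map_pow, ← map_pow, conj_pow, map_mul, map_mul]
    rw [Polynomial.aeval_monomial, Polynomial.aeval_monomial, hn, mul_assoc, mul_assoc, mul_assoc,
      ← mul_assoc, ← mul_assoc (ρ g), Algebra.commutes a (ρ g)]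

theorem INV : ∀ (K : Type u) [Field K] (V : Type v) [AddCommGroup V] [Module K V]
    (L : Type w) [Group L] [Group.IsNilpotent L] (ρ : L →* Module.End K V) (B C : Submodule K V)
    (s : L) (p : Polynomial K), B ⊓ C = ⊥ → (∀ g, ∀ v ∈ C, ρ g v ∈ B ⊔ C) →
    (∀ g, ∀ v ∈ B, ρ g v ∈ B) → (∀ v ∈ C, ρ s v ∈ C) →
    (∀ v ∈ C, Polynomial.aeval (ρ s) p v = 0) →
    (∀ v ∈ B, Polynomial.aeval (ρ s) p v = 0 → v = 0) →
    ∀ g, ∀ v ∈ C, ρ g v ∈ C := by
  intro K _ V _ _ L _ hL ρ B C s p hdis hsup hB hC hp hpi
  have key : ∀ i : ℕ, ∀ g ∈ Subgroup.upperCentralSeries L i, ∀ v ∈ C, ρ g v ∈ C := by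
    intro i
    induction i with
    | zero =>
      intro g hg v hv
      rw [Subgroup.upperCentralSeries_zero, Subgroup.mem_bot] at hg
      rw [hg]
      simpa using hv
    | succ i ih =>
      intro g hg v hv
      have hz : g * s * g⁻¹ * s⁻¹ ∈ Subgroup.upperCentralSeries L i :=
        (Subgroup.mem_upperCentralSeries_succ_iff).1 hg s
      set s' := g * s * g⁻¹ with hs'
      have hs'C : ∀ v ∈ C, ρ s' v ∈ C := by
        intro v hv
        have : ρ s' v = ρ (s' * s⁻¹) (ρ s v) := by
          rw [← Module.End.mul_apply, ← map_mul]; simp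
        rw [this]
        exact ih _ hz _ (hC v hv)
      obtain ⟨b, hb, c, hc, hbc⟩ := Submodule.mem_sup.1 (hsup g v hv)
      have h0 : Polynomial.aeval (ρ s') p (ρ g v) = 0 := by
        rw [hs', aeval_conj, Module.End.mul_apply, Module.End.mul_apply,
          ← Module.End.mul_apply (ρ g⁻¹), ← map_mul]
        simp [hp v hv]
      rw [← hbc, map_add] at h0
      have h1 : Polynomial.aeval (ρ s') p b ∈ B := aeval_mem _ B (hB s') p b hb
      have h2 : Polynomial.aeval (ρ s') p c ∈ C := aeval_mem _ C hs'C p c hc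
      have h3 : Polynomial.aeval (ρ s') p b ∈ B ⊓ C := by
        refine ⟨h1, ?_⟩
        have : Polynomial.aeval (ρ s') p b = - Polynomial.aeval (ρ s') p c :=
          eq_neg_of_add_eq_zero_left h0
        rw [this]
        exact C.neg_mem h2
      rw [hdis, Submodule.mem_bot, hs', aeval_conj, Module.End.mul_apply, Module.End.mul_apply] at h3
      have h4 : Polynomial.aeval (ρ s) p (ρ g⁻¹ b) = 0 := by
        have := congrArg (ρ g⁻¹) h3
        rw [← Module.End.mul_apply, ← map_mul] at this
        simpa using this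
      have h5 : ρ g⁻¹ b = 0 := hpi _ (hB g⁻¹ b hb) h4
      have h6 : b = 0 := by
        have := congrArg (ρ g) h5
        rw [← Module.End.mul_apply, ← map_mul] at this
        simpa using this
      rw [← hbc, h6, zero_add]
      exact hc
  obtain ⟨n, hn⟩ := hL.nilpotent
  intro g
  exact key n g (by rw [hn]; trivial)

end Pool.Agent.Helper49.AN
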