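import Pool.Agent.Helper29.AN.IRR
import Pool.Agent.Helper49.AN.INV

/-! Step (3) of Theorem AN. -/

namespace Pool.Agent.Helper49.AN

open Polynomial
open Pool.Agent.Helper29.AN (Tor exists_pow_scalar exists_letter)

universe u v w

section rep

variable {K : Type u} [Field K] {V : Type v} [AddCommGroup V] [Module K V] {L : Type w} [Group L]

/-- restricted representation -/
def resRep (ρ : L →* Module.End K V) (W : Submodule K V) (hW : ∀ g, ∀ x ∈ W, ρ g x ∈ W) :
    L →* Module.End K W where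
  toFun g := (ρ g).restrict (hW g)
  map_one' := by ext x; simp
  map_mul' a b := by ext x; simp

theorem resRep_apply (ρ : L →* Module.End K V) (W : Submodule K V)
    (hW : ∀ g, ∀ x ∈ W, ρ g x ∈ W) (g : L) (x : W) :
    ((resRep ρ W hW g x : W) : V) = ρ g x := rfl

/-- quotient representation -/
def quoRep (ρ : L →* Module.End K V) (W : Submodule K V) (hW : ∀ g, ∀ x ∈ W, ρ g x ∈ W) :
    L →* Module.End K (V ⧸ W) where
  toFun g := W.mapQ W (ρ g) (fun x hx => hW g x hx)
  map_one' := by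
    refine LinearMap.ext fun x => ?_
    obtain ⟨y, rfl⟩ := W.mkQ_surjective x
    simp
  map_mul' a b := by
    refine LinearMap.ext fun x => ?_
    obtain ⟨y, rfl⟩ := W.mkQ_surjective x
    simp

theorem quoRep_apply (ρ : L →* Module.End K V) (W : Submodule K V)
    (hW : ∀ g, ∀ x ∈ W, ρ g x ∈ W) (g : L) (x : V) :
    quoRep ρ W hW g (W.mkQ x) = W.mkQ (ρ g x) := rfl

theorem mkQ_aeval (ρ : L →* Module.End K V) (W : Submodule K V)
    (hW : ∀ g, ∀ x ∈ W, ρ g x ∈ W) (g : L) (p : K[X]) (x : V) :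
    W.mkQ (aeval (ρ g) p x) = aeval (quoRep ρ W hW g) p (W.mkQ x) := by
  induction p using Polynomial.induction_on' with
  | add p q hp hq => simp only [map_add, LinearMap.add_apply, hp, hq]
  | monomial n a =>
    have hn : ∀ n : ℕ, W.mkQ (((ρ g) ^ n) x) = ((quoRep ρ W hW g) ^ n) (W.mkQ x) := by
      intro n
      induction n with
      | zero => simp
      | succ n ih =>
        rw [pow_succ', pow_succ', Module.End.mul_apply, Module.End.mul_apply, ← ih, quoRep_apply]
    rw [aeval_monomial, aeval_monomial, Module.End.mul_apply, Module.End.mul_apply,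
      Module.algebraMap_end_apply, Module.algebraMap_end_apply, map_smul, hn]

/-- A minimal nonzero invariant subspace. -/
theorem exists_min [FiniteDimensional K V] [Nontrivial V] (ρ : L →* Module.End K V) :
    ∃ W : Submodule K V, ∃ hW : ∀ g, ∀ x ∈ W, ρ g x ∈ W, W ≠ ⊥ ∧
      ∀ U : Submodule K W, (∀ g, ∀ x ∈ U, resRep ρ W hW g x ∈ U) → U = ⊥ ∨ U = ⊤ := by
  obtain ⟨W, ⟨hW0, hW⟩, hmin⟩ := (wellFounded_lt (α := Submodule K V)).has_min
    {W | W ≠ ⊥ ∧ ∀ g, ∀ x ∈ W, ρ g x ∈ W} ⟨⊤, top_ne_bot, fun _ _ _ => trivial⟩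
  refine ⟨W, hW, hW0, fun U hU => ?_⟩
  by_cases h : U = ⊥
  · exact Or.inl h
  right
  have h1 : U.map W.subtype ≤ W := by
    rintro _ ⟨x, -, rfl⟩
    exact x.2
  have h2 : U.map W.subtype ∈ {W | W ≠ ⊥ ∧ ∀ g, ∀ x ∈ W, ρ g x ∈ W} := by
    refine ⟨fun h0 => h ?_, ?_⟩
    · rw [Submodule.eq_bot_iff]
      intro x hx
      have h00 : (x : V) ∈ U.map W.subtype := ⟨x, hx, rfl⟩
      rw [h0, Submodule.mem_bot] at h00
      exact Subtype.ext h00
    · rintro g _ ⟨x, hx, rfl⟩
      exact ⟨resRep ρ W hW g x, hU g x hx, rfl⟩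
  have h3 : U.map W.subtype = W := by
    by_contra hne
    exact hmin _ h2 (lt_of_le_of_ne h1 hne)
  rw [eq_top_iff]
  intro x _
  have : (x : V) ∈ U.map W.subtype := by rw [h3]; exact x.2
  obtain ⟨y, hy, hyx⟩ := this
  have : y = x := Subtype.ext hyx
  rwa [← this]

end rep

/-- `X ^ m - α` and torsion of roots. -/
theorem root_tor {K : Type u} [Field K] {m : ℕ} {α μ : K} (h : (X ^ m - C α : K[X]).IsRoot μ) :
    μ ^ m = α := by
  rw [IsRoot.def, eval_sub, eval_pow, eval_X, eval_C, sub_eq_zero] at h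
  exact h

theorem tor_of_pow {K : Type u} [Field K] {m : ℕ} (hm : 0 < m) {μ : K} (h : Tor (μ ^ m)) :
    Tor μ := by
  obtain ⟨k, hk, hk'⟩ := h
  exact ⟨m * k, Nat.mul_pos hm hk, by rw [pow_mul]; exact hk'⟩

theorem tor_pow {K : Type u} [Field K] {m : ℕ} {μ : K} (h : Tor μ) : Tor (μ ^ m) := by
  obtain ⟨k, hk, hk'⟩ := h
  exact ⟨k, hk, by rw [← pow_mul, mul_comm, pow_mul, hk', one_pow]⟩

/-- On an irreducible representation. -/
theorem irr_pow {K : Type u} [Field K] [IsAlgClosed K] {W : Type v} [AddCommGroup W] [Module K W]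
    [FiniteDimensional K W] [Nontrivial W] {L : Type w} [Group L] [Group.IsNilpotent L]
    (ρ : L →* Module.End K W)
    (hirr : ∀ U : Submodule K W, (∀ g, ∀ x ∈ U, ρ g x ∈ U) → U = ⊥ ∨ U = ⊤) :
    ∃ m : ℕ, 0 < m ∧ ∀ g, ∃ α : K, ρ g ^ m = α • (1 : Module.End K W) ∧
      ∃ ν, (ρ g).HasEigenvalue ν ∧ ν ^ m = α := by
  obtain ⟨m, hm, h⟩ := exists_pow_scalar ρ hirr
  refine ⟨m, hm, fun g => ?_⟩
  obtain ⟨α, hα⟩ := h g
  obtain ⟨ν, hν⟩ := Module.End.exists_eigenvalue (ρ g)
  refine ⟨α, hα, ν, hν, ?_⟩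
  obtain ⟨v, hv⟩ := hν.exists_hasEigenvector
  have h1 : (ρ g ^ m) v = ν ^ m • v := hv.pow_apply m
  rw [hα, LinearMap.smul_apply, Module.End.one_apply] at h1
  exact (smul_left_injective K hv.2 h1).symm

theorem aeval_X_pow_sub {K : Type u} [Field K] {V : Type v} [AddCommGroup V] [Module K V]
    (f : Module.End K V) (m : ℕ) (α : K) (v : V) :
    aeval f (X ^ m - C α : K[X]) v = (f ^ m) v - α • v := by
  rw [map_sub, map_pow, aeval_X, aeval_C, LinearMap.sub_apply, Module.algebraMap_end_apply]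

/-- Step (3). -/
theorem three {K : Type u} [Field K] [IsAlgClosed K] {L : Type w} [Group L] [Group.IsNilpotent L]
    (T : Set L) (hT : Subgroup.closure T = ⊤) :
    ∀ (n : ℕ) (V : Type v) [AddCommGroup V] [Module K V] [FiniteDimensional K V],
      Module.finrank K V = n → ∀ (ρ : L →* Module.End K V) (g : L) (μ : K),
      (ρ g).HasEigenvalue μ → ¬ Tor μ →
      ∃ s ∈ T, ∃ C : Submodule K V, C ≠ ⊥ ∧ (∀ g, ∀ v ∈ C, ρ g v ∈ C) ∧
        ∃ p : K[X], (∀ ν, p.IsRoot ν → ¬ Tor ν) ∧ ∀ v ∈ C, aeval (ρ s) p v = 0 := by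
  intro n
  induction n using Nat.strong_induction_on with
  | _ n ih =>
  intro V _ _ _ hn ρ g μ hμ hμt
  obtain ⟨v, hv⟩ := hμ.exists_hasEigenvector
  have hnt : Nontrivial V := ⟨v, 0, hv.2⟩
  obtain ⟨W, hW, hW0, hirr⟩ := exists_min ρ
  have hWnt : Nontrivial W := Submodule.nontrivial_iff_ne_bot.2 hW0
  obtain ⟨m, hm, hpow⟩ := irr_pow (resRep ρ W hW) hirr
  have hpowV : ∀ (h : L) (k : ℕ) (x : W), (((resRep ρ W hW h) ^ k) x : V) = ((ρ h) ^ k) (x : V) := by
    intro h k x
    induction k with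
    | zero => simp
    | succ k ihk =>
      rw [pow_succ', pow_succ', Module.End.mul_apply, Module.End.mul_apply, ← ihk, resRep_apply]
  by_cases hA : ∃ h ν, (resRep ρ W hW h).HasEigenvalue ν ∧ ¬ Tor ν
  · obtain ⟨h, ν, hν, hνt⟩ := hA
    obtain ⟨s, hs, hs'⟩ := exists_letter (resRep ρ W hW) hirr T hT h ν hν hνt
    obtain ⟨α, hα, ξ, hξ, hξα⟩ := hpow s
    have hαt : ¬ Tor α := by
      intro h0
      rw [← hξα] at h0
      exact hs' ξ hξ (tor_of_pow hm h0)
    refine ⟨s, hs, W, hW0, hW, X ^ m - C α, ?_, ?_⟩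
    · intro ν hν hνt
      apply hαt
      rw [← root_tor hν]
      exact tor_pow hνt
    · intro x hx
      rw [aeval_X_pow_sub, ← hpowV s m ⟨x, hx⟩, hα]
      simp
  · push Not at hA
    have hvW : v ∉ W := by
      intro hvW
      apply hμt
      apply hA g μ
      apply Module.End.hasEigenvalue_of_hasEigenvector (x := (⟨v, hvW⟩ : W))
      rw [Module.End.hasEigenvector_iff, Module.End.mem_eigenspace_iff]
      refine ⟨Subtype.ext ?_, fun h0 => hv.2 (congrArg Subtype.val h0)⟩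
      rw [resRep_apply]
      exact hv.apply_eq_smul
    have hlt : Module.finrank K (V ⧸ W) < n := by
      have h1 := Submodule.finrank_quotient_add_finrank W
      have h2 : 0 < Module.finrank K W := Module.finrank_pos
      omega
    obtain ⟨s, hs, Cb, hCb0, hCb, p, hp, hpC⟩ := ih _ hlt (V ⧸ W) rfl (quoRep ρ W hW) g μ
      (by
        apply Module.End.hasEigenvalue_of_hasEigenvector (x := W.mkQ v)
        rw [Module.End.hasEigenvector_iff, Module.End.mem_eigenspace_iff]
        refine ⟨?_, fun h0 => hvW ?_⟩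
        · rw [quoRep_apply, hv.apply_eq_smul, map_smul]
        · rwa [Submodule.mkQ_apply, Submodule.Quotient.mk_eq_zero] at h0) hμt
    obtain ⟨α, hα, ξ, hξ, hξα⟩ := hpow s
    have hαt : Tor α := by
      rw [← hξα]
      exact tor_pow (hA s ξ hξ)
    obtain ⟨q, hq⟩ : ∃ q : K[X], q = X ^ m - C α := ⟨_, rfl⟩
    have hqt : ∀ ν, q.IsRoot ν → Tor ν := by
      intro ν hν
      rw [hq] at hν
      have h1 := root_tor hν
      apply tor_of_pow hm
      rw [h1]
      exact hαt
    have hqW : ∀ x ∈ W, aeval (ρ s) q x = 0 := by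
      intro x hx
      rw [hq, aeval_X_pow_sub, ← hpowV s m ⟨x, hx⟩, hα]
      simp
    obtain ⟨a, b, hab⟩ : IsCoprime p q := by
      rw [isCoprime_iff_aeval_ne_zero_of_isAlgClosed K K]
      intro x
      by_contra hcon
      push Not at hcon
      exact hp x hcon.1 (hqt x hcon.2)
    have hab' : ∀ x : V, aeval (ρ s) a (aeval (ρ s) p x) + aeval (ρ s) b (aeval (ρ s) q x) = x := by
      intro x
      rw [← Module.End.mul_apply, ← Module.End.mul_apply, ← map_mul, ← map_mul,
        ← LinearMap.add_apply, ← map_add, hab, map_one, Module.End.one_apply]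
    have hcomm : ∀ (r t : K[X]) (x : V), aeval (ρ s) r (aeval (ρ s) t x) =
        aeval (ρ s) t (aeval (ρ s) r x) := by
      intro r t x
      rw [← Module.End.mul_apply, ← Module.End.mul_apply, ← map_mul, ← map_mul, mul_comm]
    have hinjW : ∀ x ∈ W, aeval (ρ s) p x = 0 → x = 0 := by
      intro x hx h0
      have := hab' x
      rw [h0, hqW x hx, map_zero, map_zero, add_zero] at this
      exact this.symm
    have hXinv : ∀ g, ∀ x ∈ Cb.comap W.mkQ, ρ g x ∈ Cb.comap W.mkQ := by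
      intro g x hx
      rw [Submodule.mem_comap] at hx ⊢
      rw [← quoRep_apply ρ W hW]
      exact hCb g _ hx
    have hpX : ∀ x ∈ Cb.comap W.mkQ, aeval (ρ s) p x ∈ W := by
      intro x hx
      have h1 := mkQ_aeval ρ W hW s p x
      rw [hpC _ hx, Submodule.mkQ_apply, Submodule.Quotient.mk_eq_zero] at h1
      exact h1
    obtain ⟨D, hD⟩ : ∃ D : Submodule K V, D = Cb.comap W.mkQ ⊓ LinearMap.ker (aeval (ρ s) p) :=
      ⟨_, rfl⟩
    have hmemD : ∀ x, x ∈ D ↔ x ∈ Cb.comap W.mkQ ∧ aeval (ρ s) p x = 0 := by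
      intro x
      rw [hD, Submodule.mem_inf, LinearMap.mem_ker]
    have hsup : ∀ x ∈ Cb.comap W.mkQ, x ∈ W ⊔ D := by
      intro x hx
      rw [← hab' x]
      apply Submodule.add_mem_sup
      · exact aeval_mem _ W (hW s) a _ (hpX x hx)
      · rw [hmemD]
        refine ⟨?_, ?_⟩
        · exact aeval_mem _ _ (hXinv s) b _ (aeval_mem _ _ (hXinv s) q _ hx)
        · rw [hcomm p b, hcomm p q, hqW _ (hpX x hx), map_zero]
    refine ⟨s, hs, D, ?_, ?_, p, hp, fun x hx => ((hmemD x).1 hx).2⟩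
    · intro hD0
      apply hCb0
      rw [Submodule.eq_bot_iff]
      intro y hy
      obtain ⟨x, rfl⟩ := W.mkQ_surjective y
      have h1 := hsup x hy
      rw [hD0, sup_bot_eq] at h1
      rw [Submodule.mkQ_apply, Submodule.Quotient.mk_eq_zero]
      exact h1
    · refine INV K V L ρ W D s p ?_ ?_ hW ?_ (fun x hx => ((hmemD x).1 hx).2) hinjW
      · rw [Submodule.eq_bot_iff]
        rintro x ⟨hx1, hx2⟩
        exact hinjW x hx1 ((hmemD x).1 hx2).2
      · intro g x hx
        exact hsup _ (hXinv g x ((hmemD x).1 hx).1)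
      · intro x hx
        rw [hmemD] at hx ⊢
        refine ⟨hXinv s x hx.1, ?_⟩
        have h1 := hcomm p X x
        rw [aeval_X, hx.2, map_zero] at h1
        exact h1

end Pool.Agent.Helper49.AN
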