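import Pool.Agent.Helper51.AN.Goals
import Pool.Agent.Helper49.AN.THREE

/-! Packet HYP of Theorem AN. -/

namespace Pool.Agent.Helper49.AN

open Polynomial
open Pool.Agent.Helper51.AN (NilA Inv HypOn TorOn HypStmt)

universe u v w

/-- The representation of the nilpotent quotient. -/
theorem exists_quot {G : Type u} [Group G] {K : Type v} [Field K] {V : Type w} [AddCommGroup V]
    [Module K V] (ρ : G →* Module.End K V) (h : NilA ρ) :
    ∃ ρ' : G ⧸ ρ.ker →* Module.End K V, Group.IsNilpotent (G ⧸ ρ.ker) ∧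
      ∀ g : G, ρ' (g : G ⧸ ρ.ker) = ρ g := by
  obtain ⟨c, hc⟩ := h
  refine ⟨QuotientGroup.lift ρ.ker ρ le_rfl, ?_, fun g => rfl⟩
  rw [Subgroup.nilpotent_iff_lowerCentralSeries]
  refine ⟨c, ?_⟩
  have h1 : (⊤ : Subgroup (G ⧸ ρ.ker)) = (⊤ : Subgroup G).map (QuotientGroup.mk' ρ.ker) :=
    (Subgroup.map_top_of_surjective _ (QuotientGroup.mk'_surjective _)).symm
  rw [h1, ← Subgroup.map_lowerCentralSeries, eq_bot_iff]
  rintro _ ⟨x, hx, rfl⟩
  rw [Subgroup.mem_bot]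
  exact (QuotientGroup.eq_one_iff x).2 (hc x hx)

theorem hyp : HypStmt.{u, v, w} := by
  intro G _ K _ _ V _ _ _ ρ hρ T hT hg
  obtain ⟨g, hg⟩ := hg
  obtain ⟨ρ', hnil, hρ'⟩ := exists_quot ρ hρ
  unfold TorOn at hg
  push Not at hg
  obtain ⟨μ, x, -, hx0, hx, hμ⟩ := hg
  have hT' : Subgroup.closure ((QuotientGroup.mk' ρ.ker) '' T) = ⊤ := by
    rw [← MonoidHom.map_closure, hT]
    exact Subgroup.map_top_of_surjective _ (QuotientGroup.mk'_surjective _)
  obtain ⟨s', ⟨s, hs, rfl⟩, C, hC0, hC, p, hp, hpC⟩ := three ((QuotientGroup.mk' ρ.ker) '' T) hT'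
    _ V rfl ρ' (g : G ⧸ ρ.ker) μ (by
      apply Module.End.hasEigenvalue_of_hasEigenvector (x := x)
      rw [Module.End.hasEigenvector_iff, Module.End.mem_eigenspace_iff, hρ']
      exact ⟨hx, hx0⟩) hμ
  refine ⟨s, hs, C, ?_, hC0, ?_⟩
  · intro g x hx
    rw [← hρ']
    exact hC _ x hx
  · intro ν y hy hy0 hsy
    apply hp
    have h1 := hpC y hy
    have h2 : ρ' (QuotientGroup.mk' ρ.ker s) = ρ s := hρ' s
    rw [h2] at h1
    have h3 : (ρ s).HasEigenvector ν y := by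
      rw [Module.End.hasEigenvector_iff, Module.End.mem_eigenspace_iff]
      exact ⟨hsy, hy0⟩
    rw [Module.End.aeval_apply_of_hasEigenvector h3] at h1
    exact (smul_eq_zero.1 h1).resolve_right hy0

end Pool.Agent.Helper49.AN
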