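import Mathlib

/-! Left-normed commutators of letters (for Theorem AN). -/

namespace Pool.Agent.Helper49.AN

open Subgroup
open scoped commutatorElement Pointwise

universe u

/-- Left-normed commutators of weight `c + 1` in the elements of `T`. -/
def LN {G : Type u} [Group G] (T : Set G) : ℕ → Set G
  | 0 => T
  | c + 1 => {g | ∃ a ∈ LN T c, ∃ b ∈ T, g = ⁅a, b⁆}

theorem LN_map {G H : Type u} [Group G] [Group H] (f : G →* H) (T : Set G) (c : ℕ) :
    LN (f '' T) c ⊆ f '' (LN T c) := by
  induction c with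
  | zero => exact subset_rfl
  | succ c ih =>
    rintro g ⟨a, ha, b, ⟨b', hb', rfl⟩, rfl⟩
    obtain ⟨a', ha', rfl⟩ := ih ha
    exact ⟨⁅a', b'⁆, ⟨a', ha', b', hb', rfl⟩, map_commutatorElement f a' b'⟩

theorem lcs_bot_of_LN : ∀ (c : ℕ) (G : Type u) [Group G] (T : Set G), closure T = ⊤ →
    (∀ g ∈ LN T c, g = 1) → (⊤ : Subgroup G).lowerCentralSeries c = ⊥ := by
  intro c
  induction c with
  | zero =>
    intro G _ T hT h
    have : (⊤ : Subgroup G) = ⊥ := by
      rw [← hT, closure_eq_bot_iff]
      intro g hg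
      exact h g hg
    simpa using this
  | succ c ih =>
    intro G _ T hT h
    have hZ : ∀ a ∈ LN T c, a ∈ center G := by
      intro a ha
      have : closure T ≤ centralizer {a} := by
        rw [closure_le]
        intro b hb
        rw [SetLike.mem_coe, mem_centralizer_singleton_iff]
        have := h _ ⟨a, ha, b, hb, rfl⟩
        rw [commutatorElement_eq_one_iff_mul_comm] at this
        exact this.symm
      rw [hT] at this
      rw [mem_center_iff]
      intro g
      exact mem_centralizer_singleton_iff.1 (this (mem_top g))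
    have hq : (⊤ : Subgroup (G ⧸ center G)).lowerCentralSeries c = ⊥ := by
      apply ih (G ⧸ center G) ((QuotientGroup.mk' (center G)) '' T)
      · rw [← MonoidHom.map_closure, hT]
        exact map_top_of_surjective _ (QuotientGroup.mk'_surjective _)
      · intro g hg
        obtain ⟨a, ha, rfl⟩ := LN_map _ _ _ hg
        exact (QuotientGroup.eq_one_iff a).2 (hZ a ha)
    have h1 : (⊤ : Subgroup G).lowerCentralSeries c ≤ center G := by
      intro g hg
      have : QuotientGroup.mk' (center G) g ∈ (⊤ : Subgroup (G ⧸ center G)).lowerCentralSeries c :=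
        Subgroup.lowerCentralSeries.map (QuotientGroup.mk' (center G)) c ⟨g, hg, rfl⟩
      rw [hq, mem_bot] at this
      exact (QuotientGroup.eq_one_iff g).1 this
    rw [Subgroup.lowerCentralSeries_succ, commutator_eq_bot_iff_le_centralizer]
    exact h1.trans (by rw [coe_top, centralizer_univ])

/-- Length of a left-normed commutator. -/
theorem LN_mem_pow {G : Type u} [Group G] [DecidableEq G] (T : Finset G) (hinv : ∀ g ∈ T, g⁻¹ ∈ T)
    (c : ℕ) : ∀ g ∈ LN (T : Set G) c, g ∈ (T ^ (3 * 2 ^ c - 2) : Finset G) ∧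
      g⁻¹ ∈ (T ^ (3 * 2 ^ c - 2) : Finset G) := by
  induction c with
  | zero =>
    intro g hg
    simpa using ⟨hg, hinv g hg⟩
  | succ c ih =>
    rintro g ⟨a, ha, b, hb, rfl⟩
    obtain ⟨h1, h2⟩ := ih a ha
    have hb1 : b ∈ T := hb
    have hb2 : b⁻¹ ∈ T := hinv b hb
    have hl : 3 * 2 ^ (c + 1) - 2 = (3 * 2 ^ c - 2) + 1 + (3 * 2 ^ c - 2) + 1 := by
      have : 1 ≤ 2 ^ c := Nat.one_le_two_pow
      rw [pow_succ]; omega
    have hl' : 3 * 2 ^ (c + 1) - 2 = 1 + (3 * 2 ^ c - 2) + 1 + (3 * 2 ^ c - 2) := by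
      have : 1 ≤ 2 ^ c := Nat.one_le_two_pow
      rw [pow_succ]; omega
    constructor
    · rw [hl, pow_add, pow_add, pow_add, pow_one, commutatorElement_def]
      exact Finset.mul_mem_mul (Finset.mul_mem_mul (Finset.mul_mem_mul h1 hb1) h2) hb2
    · rw [hl', pow_add, pow_add, pow_add, pow_one, commutatorElement_inv, commutatorElement_def]
      exact Finset.mul_mem_mul (Finset.mul_mem_mul (Finset.mul_mem_mul hb1 h1) hb2) h2

end Pool.Agent.Helper49.AN
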