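import Pool.Agent.Helper59.AN.Goals

set_option autoImplicit false

noncomputable section

namespace AN.PkRNK

variable {X : Type} [LinearOrder X]

/-- running maximum -/
def fm (e : ℕ → X) (n : ℕ) : X :=
  (Finset.range (n + 1)).sup' ⟨0, Finset.mem_range.2 (Nat.succ_pos n)⟩ e

lemma fm_lt (e : ℕ → X) (c : X) (h : ∀ k, e k < c) (n : ℕ) : fm e n < c := by
  unfold fm
  rw [Finset.sup'_lt_iff]
  exact fun k _ => h k

lemma le_fm (e : ℕ → X) (m n : ℕ) (h : m ≤ n) : e m ≤ fm e n := by
  unfold fm
  exact Finset.le_sup' e (Finset.mem_range.2 (by omega))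

/-- the ranks -/
def rkF (f : X → ℕ → X) (x : X) : List ℕ → X
  | [] => x
  | n :: s => f (rkF f x s) n

theorem rnk : G_RNK := by
  intro X _ hX hr
  obtain ⟨r₀, hr₀⟩ := hr
  have hunc := hX.unc
  have hne : Nonempty X := inferInstance
  obtain ⟨one⟩ := hne
  have he : ∀ c : X, ∃ e : ℕ → X, one < c → Set.range e = Set.Iio c := by
    intro c
    by_cases hc : one < c
    · have h1 : (Set.Iio c).Countable := (hX.cnt c).mono Set.Iio_subset_Iic_self
      obtain ⟨e, he⟩ := h1.exists_eq_range ⟨one, hc⟩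
      exact ⟨e, fun _ => he.symm⟩
    · exact ⟨fun _ => one, fun h => absurd h hc⟩
  choose e he using he
  set f : X → ℕ → X := fun c n => fm (e c) n with hf
  have hf1 : ∀ c n, one < c → f c n < c := by
    intro c n hc
    refine fm_lt _ _ (fun k => ?_) n
    have : e c k ∈ Set.range (e c) := ⟨k, rfl⟩
    rw [he c hc] at this
    exact this
  have hf2 : ∀ c b b', one < c → b < b' → b' < c → {n | f c n ≤ b}.Finite := by
    intro c b b' hc hb hb'
    have h1 : b' ∈ Set.range (e c) := by
      rw [he c hc]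
      exact hb'
    obtain ⟨m, hm⟩ := h1
    refine (Set.finite_lt_nat m).subset fun n hn => ?_
    by_contra hc2
    have hmn : m ≤ n := not_lt.1 hc2
    have h2 := le_fm (e c) m n hmn
    have h3 : f c n ≤ b := hn
    rw [hm] at h2
    exact absurd (lt_of_lt_of_le hb (h2.trans h3)) (lt_irrefl _)
  refine ⟨{
    one := one
    rk := rkF f
    r := fun x => {k | (∃ s : List ℕ, k = 2 * Encodable.encode s ∧ one < rkF f x s) ∨
      ∃ m ∈ r₀ x, k = 2 * m + 1}
    lt := fun x s n h => hf1 _ _ h
    fin := fun x s b b' h h1 h2 => hf2 _ b b' h h1 h2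
    root := fun x => le_rfl
    inj := ?_
    cod := ?_ }⟩
  · intro x y hxy
    apply hr₀
    have key : ∀ z : X, ∀ m : ℕ, m ∈ r₀ z ↔ 2 * m + 1 ∈ {k | (∃ s : List ℕ,
        k = 2 * Encodable.encode s ∧ one < rkF f z s) ∨ ∃ m ∈ r₀ z, k = 2 * m + 1} := by
      intro z m
      constructor
      · intro h
        exact Or.inr ⟨m, h, rfl⟩
      · rintro (⟨s, h1, _⟩ | ⟨m', h1, h2⟩)
        · omega
        · have : m = m' := by omega
          rw [this]
          exact h1
    ext m
    rw [key x m, key y m]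
    exact Set.ext_iff.1 hxy (2 * m + 1)
  · intro x s
    constructor
    · rintro (⟨s', h1, h2⟩ | ⟨m, _, h2⟩)
      · have h3 : Encodable.encode s = Encodable.encode s' := by omega
        rw [Encodable.encode_injective h3]
        exact h2
      · omega
    · intro h
      exact Or.inl ⟨s, rfl, h⟩

end AN.PkRNK
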