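import Pool.Agent.Helper49.AN.HYP

/-! Packet UNP of Theorem AN. -/

namespace Pool.Agent.Helper49.AN

open Polynomial
open Pool.Agent.Helper51.AN (NilA Inv HypOn TorOn HypStmt FtnStmt UnpStmt)
open Pool.Agent.Helper29.AN (Tor)

universe u v w

/-- an eigenvalue of the quotient is an eigenvalue -/
theorem torOn_quo {K : Type v} [Field K] {V : Type w} [AddCommGroup V] [Module K V]
    [FiniteDimensional K V] {L : Type u} [Group L] (ρ : L →* Module.End K V) (W : Submodule K V)
    (hW : ∀ g, ∀ x ∈ W, ρ g x ∈ W) (g : L) (h : TorOn (ρ g) ⊤) : TorOn (quoRep ρ W hW g) ⊤ := by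
  intro μ y _ hy hgy
  by_contra hμ
  obtain ⟨x, rfl⟩ := W.mkQ_surjective y
  have hinj : ∀ z : V, ρ g z = μ • z → z = 0 := by
    intro z hz
    by_contra hz0
    exact hμ (h μ z trivial hz0 hz)
  have hfW : ∀ z ∈ W, (ρ g - μ • (1 : Module.End K V)) z ∈ W := by
    intro z hz
    rw [LinearMap.sub_apply, LinearMap.smul_apply, Module.End.one_apply]
    exact W.sub_mem (hW g z hz) (W.smul_mem μ hz)
  obtain ⟨φ, hφ⟩ : ∃ φ : Module.End K W, φ = (ρ g - μ • (1 : Module.End K V)).restrict hfW :=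
    ⟨_, rfl⟩
  have hφi : Function.Injective φ := by
    rw [← LinearMap.ker_eq_bot, LinearMap.ker_eq_bot']
    intro z hz
    have h1 : (φ z : V) = 0 := by rw [hz]; rfl
    rw [hφ, LinearMap.coe_restrict_apply, LinearMap.sub_apply, LinearMap.smul_apply,
      Module.End.one_apply, sub_eq_zero] at h1
    exact Subtype.ext (hinj _ h1)
  have hφs : Function.Surjective φ := LinearMap.injective_iff_surjective.1 hφi
  have h2 : (ρ g - μ • (1 : Module.End K V)) x ∈ W := by
    rw [quoRep_apply, ← map_smul, ← sub_eq_zero, ← map_sub, Submodule.mkQ_apply,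
      Submodule.Quotient.mk_eq_zero] at hgy
    rw [LinearMap.sub_apply, LinearMap.smul_apply, Module.End.one_apply]
    exact hgy
  obtain ⟨w, hw⟩ := hφs ⟨_, h2⟩
  have h3 : (ρ g - μ • (1 : Module.End K V)) (w : V) = (ρ g - μ • (1 : Module.End K V)) x := by
    have := congrArg Subtype.val hw
    rw [hφ, LinearMap.coe_restrict_apply] at this
    exact this
  have h4 : x - w = 0 := by
    apply hinj
    rw [← sub_eq_zero]
    have h5 : (ρ g - μ • (1 : Module.End K V)) (x - w) = 0 := by rw [map_sub, h3, sub_self]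
    rwa [LinearMap.sub_apply, LinearMap.smul_apply, Module.End.one_apply] at h5
  apply hy
  rw [Submodule.mkQ_apply, Submodule.Quotient.mk_eq_zero, sub_eq_zero.1 h4]
  exact w.2

theorem unp_aux (hftn : FtnStmt.{u}) {G : Type u} [Group G] (hG : Group.FG G) {K : Type v}
    [Field K] [IsAlgClosed K] : ∀ (d : ℕ) (V : Type w) [AddCommGroup V] [Module K V]
    [FiniteDimensional K V], Module.finrank K V = d → ∀ (ρ : G →* Module.End K V), NilA ρ →
    (∀ g, TorOn (ρ g) ⊤) →
    ∃ U : Subgroup G, U.FiniteIndex ∧ ∃ (n : ℕ) (F : ℕ → Submodule K V), F 0 = ⊥ ∧ F n = ⊤ ∧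
      ∀ i, ∀ g ∈ U, ∀ x ∈ F (i + 1), ρ g x - x ∈ F i := by
  intro d
  induction d using Nat.strong_induction_on with
  | _ d ih =>
  intro V _ _ _ hd ρ hρ htor
  rcases subsingleton_or_nontrivial V with hV | hV
  · exact ⟨⊤, inferInstance, 0, fun _ => ⊥, rfl, Subsingleton.elim _ _, fun i g _ x _ => by
      rw [Subsingleton.elim (ρ g x - x) 0]; exact Submodule.zero_mem _⟩
  obtain ⟨W, hW, hW0, hirr⟩ := exists_min ρ
  have hWnt : Nontrivial W := Submodule.nontrivial_iff_ne_bot.2 hW0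
  have hlt : Module.finrank K (V ⧸ W) < d := by
    have h1 := Submodule.finrank_quotient_add_finrank W
    have h2 : 0 < Module.finrank K W := Module.finrank_pos
    omega
  have hnW : NilA (resRep ρ W hW) := by
    obtain ⟨c, hc⟩ := hρ
    refine ⟨c, fun g hg => ?_⟩
    refine LinearMap.ext fun x => Subtype.ext ?_
    rw [resRep_apply, hc g hg]
    rfl
  have hnQ : NilA (quoRep ρ W hW) := by
    obtain ⟨c, hc⟩ := hρ
    refine ⟨c, fun g hg => ?_⟩
    refine LinearMap.ext fun x => ?_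
    obtain ⟨y, rfl⟩ := W.mkQ_surjective x
    rw [quoRep_apply, hc g hg]
    rfl
  obtain ⟨ρ', hnil, hρ'⟩ := exists_quot _ hnW
  obtain ⟨m, hm, hpow⟩ := irr_pow ρ' (by
    intro U hU
    apply hirr U
    intro g x hx
    rw [← hρ']
    exact hU _ x hx)
  have hfin : Finite (G ⧸ (resRep ρ W hW).ker) := by
    apply hftn _ _ hnil
    · intro y
      obtain ⟨g, rfl⟩ := QuotientGroup.mk_surjective y
      obtain ⟨α, hα, ν, hν, hνα⟩ := hpow (g : G ⧸ (resRep ρ W hW).ker)
      rw [hρ'] at hα hν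
      have hνt : Tor ν := by
        obtain ⟨x, hx⟩ := hν.exists_hasEigenvector
        apply htor g ν (x : V) trivial (fun h0 => hx.2 (Subtype.ext h0))
        rw [← resRep_apply ρ W hW, hx.apply_eq_smul]
        rfl
      obtain ⟨k, hk, hk'⟩ := hνt
      refine ⟨m * k, Nat.mul_pos hm hk, ?_⟩
      rw [← QuotientGroup.mk_pow, QuotientGroup.eq_one_iff, MonoidHom.mem_ker, map_pow, pow_mul, hα,
        _root_.smul_pow, one_pow, ← hνα, ← pow_mul, mul_comm, pow_mul, hk', one_pow, one_smul]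
    · have := hG
      infer_instance
  have hU1 : ((resRep ρ W hW).ker).FiniteIndex := Subgroup.finiteIndex_of_finite_quotient
  obtain ⟨U2, hU2, n, Fb, hFb0, hFbn, hFb⟩ := ih _ hlt (V ⧸ W) rfl (quoRep ρ W hW) hnQ
    (fun g => torOn_quo ρ W hW g (htor g))
  refine ⟨(resRep ρ W hW).ker ⊓ U2, inferInstance, n + 1,
    fun i => Nat.casesOn i ⊥ (fun j => (Fb j).comap W.mkQ), rfl, ?_, ?_⟩
  · change (Fb n).comap W.mkQ = ⊤
    rw [hFbn, Submodule.comap_top]
  · intro i g hg x hx
    change x ∈ (Fb i).comap W.mkQ at hx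
    rcases i with _ | i
    · change ρ g x - x ∈ (⊥ : Submodule K V)
      rw [hFb0, Submodule.mem_comap, Submodule.mem_bot, Submodule.mkQ_apply,
        Submodule.Quotient.mk_eq_zero] at hx
      rw [Submodule.mem_bot, sub_eq_zero]
      have h1 := (MonoidHom.mem_ker).1 hg.1
      rw [← resRep_apply ρ W hW g ⟨x, hx⟩, h1]
      rfl
    · change ρ g x - x ∈ (Fb i).comap W.mkQ
      rw [Submodule.mem_comap, map_sub, ← quoRep_apply ρ W hW]
      exact hFb i g hg.2 _ hx

theorem unp (hftn : FtnStmt.{u}) : UnpStmt.{u, v, w} := by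
  intro G _ K _ _ V _ _ _ ρ hG hρ htor
  exact unp_aux hftn hG _ V rfl ρ hρ htor

end Pool.Agent.Helper49.AN
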